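import Pool.Agent.H.MP_a0e599_al.B

namespace Pool.Agent.Results.MP_a0e599_al.Yes

open Pool.Agent.H.MP_a0e599_al

/-- the homogeneous part of degree `r` -/
def deg (K : Type) [Field K] (n r : ℕ) : Set (ExteriorAlgebra K (Fin n → K)) :=
  ⋀[K]^r (Fin n → K)

/-- the square-free monomial of a `d`-set -/
noncomputable def mon (K : Type) [Field K] {n d : ℕ} (S : Set.powersetCard (Fin n) d) :
    ExteriorAlgebra K (Fin n → K) :=
  ExteriorAlgebra.ιMulti_family K d (Pi.basisFun K (Fin n)) S

/-- the form with coefficients `c` -/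
noncomputable def form {K : Type} [Field K] {n d : ℕ} (c : Set.powersetCard (Fin n) d → K) :
    ExteriorAlgebra K (Fin n → K) := ∑ S, c S • mon K S

/-- product -/
noncomputable def wedge {K : Type} [Field K] {n : ℕ} (f g : ExteriorAlgebra K (Fin n → K)) :
    ExteriorAlgebra K (Fin n → K) := f * g

theorem result (K : Type) [Field K] [CharZero K] (d r n : ℕ) (hd : Odd d) (hn : d * (r + 1) ≤ n)
    (c : Set.powersetCard (Fin n) d → K) (hc : AlgebraicIndependent ℚ c)
    (g : ExteriorAlgebra K (Fin n → K)) (hg : g ∈ deg K n r) (h0 : wedge (form c) g = 0) :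
    (r < d → g = 0) ∧ (d ≤ r → ∃ h ∈ deg K n (r - d), wedge (form c) h = g) := by
  unfold deg wedge at *
  simp only [SetLike.mem_coe] at hg ⊢
  generalize hf : form c = f at *
  replace hf := hf.symm
  unfold form mon at hf
  have e : f = ∑ S, c S • x K n S.1 := by
    rw [hf]
    exact Finset.sum_congr rfl fun S _ => by
      rw [← ExteriorAlgebra.basis_apply_powersetCard]; rfl
  rw [pow_eq] at hg
  obtain ⟨h, h1, h2⟩ := generic hd hn hc hg (e ▸ h0)
  refine ⟨fun hr => ?_, fun hr => ⟨h, ?_, e ▸ h2⟩⟩
  · have : h = 0 := (x K n).repr.injective (Finsupp.ext fun T => by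
      by_contra a
      have := mem_V.1 h1 T (by simpa using a)
      omega)
    rw [← h2, this, mul_zero]
  · rw [pow_eq, mem_V]
    intro T a
    have := mem_V.1 h1 T a
    omega

end Pool.Agent.Results.MP_a0e599_al.Yes
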